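import Pool.Agent.Lead.UB.Defs

/-! Packet StmtBad: bad books are rare. -/

namespace Pool.Agent.Lead.UB

open Finset

namespace Bad

variable {N t : ℕ}

abbrev Fs (N : ℕ) := Finset (Fin N)

open Classical in
/-- Few ordered edges have a union not halving `T`. -/
lemma edges_le {R : Fs N → Fs N → Prop}
    (hinj : ∀ A B A' B', R A B → R A' B' → A ∪ B = A' ∪ B' →
      (A = A' ∧ B = B') ∨ (A = B' ∧ B = A'))
    {η : ℝ} (hη : 0 < η) (hN : 0 < N) (hC : StmtCheb) (T : Fs N) :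
    (#{e ∈ (univ : Finset (Fs N × Fs N)) | R e.1 e.2 ∧ ¬ Halves η (e.1 ∪ e.2) T} : ℝ) ≤
      2 * (2 ^ N / (4 * η ^ 2 * N)) := by
  have h1 := hC N T η hη hN
  have h2 : #{e ∈ (univ : Finset (Fs N × Fs N)) | R e.1 e.2 ∧ ¬ Halves η (e.1 ∪ e.2) T} ≤
      2 * #{S : Fs N | ¬ Halves η S T} := by
    refine (card_le_mul_card_image (f := fun e : Fs N × Fs N => e.1 ∪ e.2) _ 2 ?_).trans ?_
    · intro S hS
      rw [mem_image] at hS
      obtain ⟨⟨P, Q⟩, hPQ, rfl⟩ := hS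
      rw [mem_filter] at hPQ
      refine (card_le_card (t := {(P, Q), (Q, P)}) ?_).trans (card_le_two)
      rintro ⟨P', Q'⟩ h
      rw [mem_filter, mem_filter] at h
      rcases hinj _ _ _ _ h.1.2.1 hPQ.2.1 h.2 with ⟨h3, h4⟩ | ⟨h3, h4⟩
      · simp only at h3 h4
        simp [h3, h4]
      · simp only at h3 h4
        simp [h3, h4]
    · refine Nat.mul_le_mul_left 2 (card_le_card ?_)
      intro S hS
      rw [mem_image] at hS
      obtain ⟨e, he, rfl⟩ := hS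
      rw [mem_filter] at he
      rw [mem_filter]
      exact ⟨mem_univ _, he.2.2⟩
  have h3 : (#{e ∈ (univ : Finset (Fs N × Fs N)) | R e.1 e.2 ∧ ¬ Halves η (e.1 ∪ e.2) T} : ℝ) ≤
      2 * (#{S : Fs N | ¬ Halves η S T} : ℝ) := by exact_mod_cast h2
  exact h3.trans (by linarith)

open Classical in
/-- The general count for one condition. -/
lemma count_le {F : Finset (Fs N)} {R : Fs N → Fs N → Prop}
    (hinj : ∀ A B A' B', R A B → R A' B' → A ∪ B = A' ∪ B' →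
      (A = A' ∧ B = B') ∨ (A = B' ∧ B = A'))
    {η : ℝ} (hη : 0 < η) (hN : 0 < N) (hC : StmtCheb)
    (Y : Finset ((Fs N × Fs N) × (Fin t → Fs N)))
    (Φ : (Fs N × Fs N) × (Fin t → Fs N) → (Fs N × Fs N) × (Fin t → Fs N))
    (hΦ : Set.InjOn Φ Y) (τ : (Fin t → Fs N) → Fs N)
    (h1 : ∀ q ∈ Y, R (Φ q).1.1 (Φ q).1.2) (h2 : ∀ q ∈ Y, ∀ j, (Φ q).2 j ∈ F)
    (h3 : ∀ q ∈ Y, ¬ Halves η ((Φ q).1.1 ∪ (Φ q).1.2) (τ (Φ q).2)) :
    (#Y : ℝ) ≤ (#F : ℝ) ^ t * (2 * (2 ^ N / (4 * η ^ 2 * N))) := by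
  have e1 : #Y = ∑ ψ ∈ Fintype.piFinset (fun _ : Fin t => F), #{q ∈ Y | (Φ q).2 = ψ} := by
    apply card_eq_sum_card_fiberwise
    intro q hq
    exact Fintype.mem_piFinset.2 (h2 q hq)
  rw [e1]
  push_cast
  have e2 : ∀ ψ ∈ Fintype.piFinset (fun _ : Fin t => F), (#{q ∈ Y | (Φ q).2 = ψ} : ℝ) ≤
      2 * (2 ^ N / (4 * η ^ 2 * N)) := by
    intro ψ _
    refine le_trans ?_ (edges_le hinj hη hN hC (τ ψ))
    rw [Nat.cast_le]
    refine card_le_card_of_injOn (fun q => (Φ q).1) ?_ ?_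
    · intro q hq
      rw [mem_coe, mem_filter] at hq
      rw [mem_coe, mem_filter]
      refine ⟨mem_univ _, h1 q hq.1, ?_⟩
      rw [← hq.2]
      exact h3 q hq.1
    · intro q hq q' hq' h
      rw [mem_coe, mem_filter] at hq hq'
      exact hΦ hq.1 hq'.1 (Prod.ext h (hq.2.trans hq'.2.symm))
  refine (sum_le_sum e2).trans ?_
  rw [sum_const, Fintype.card_piFinset_const, nsmul_eq_mul]
  push_cast
  simp

lemma card_small (k : ℕ) : #{J : Finset (Fin t) | #J ≤ k} ≤ ∑ i ∈ range (k + 1), t ^ i := by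
  classical
  calc #{J : Finset (Fin t) | #J ≤ k}
      ≤ #((range (k + 1)).biUnion (fun i => powersetCard i (univ : Finset (Fin t)))) := by
        refine card_le_card ?_
        intro J hJ
        rw [mem_filter] at hJ
        rw [mem_biUnion]
        exact ⟨#J, by rw [mem_range]; omega, mem_powersetCard.2 ⟨subset_univ _, rfl⟩⟩
    _ ≤ ∑ i ∈ range (k + 1), #(powersetCard i (univ : Finset (Fin t))) := card_biUnion_le
    _ ≤ ∑ i ∈ range (k + 1), t ^ i := by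
        refine sum_le_sum fun i _ => ?_
        rw [card_powersetCard, card_univ, Fintype.card_fin]
        exact Nat.choose_le_pow t i

lemma cap_update {A : Fin t → Fs N} {J : Finset (Fin t)} {i : Fin t} (hi : i ∉ J) (D : Fs N) :
    cap (Function.update A i D) J = cap A J := by
  unfold cap
  ext v
  simp only [mem_filter, mem_univ, true_and]
  refine forall_congr' fun j => ?_
  refine imp_congr_right fun hj => ?_
  rw [Function.update_of_ne (by rintro rfl; exact hi hj)]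


abbrev Bk (N t : ℕ) := (Fs N × Fs N) × (Fin t → Fs N)

section parts

variable {F : Finset (Fs N)} {R : Fs N → Fs N → Prop}

open Classical in
lemma part1 (hF : ∀ A B, R A B → A ∈ F ∧ B ∈ F)
    (hinj : ∀ A B A' B', R A B → R A' B' → A ∪ B = A' ∪ B' →
      (A = A' ∧ B = B') ∨ (A = B' ∧ B = A'))
    {η : ℝ} (hη : 0 < η) (hN : 0 < N) (hC : StmtCheb) (X : Finset (Bk N t))
    (hX : ∀ q ∈ X, R q.1.1 q.1.2 ∧ (∀ i, R (q.2 i) q.1.1 ∧ R (q.2 i) q.1.2))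
    (J : Finset (Fin t)) :
    (#{q ∈ X | ¬ Halves η (q.1.1 ∪ q.1.2) (cap q.2 J)} : ℝ) ≤
      (#F : ℝ) ^ t * (2 * (2 ^ N / (4 * η ^ 2 * N))) := by
  refine count_le (F := F) hinj hη hN hC _ id (Set.injOn_id _) (fun ψ => cap ψ J) ?_ ?_ ?_
  · intro q hq
    exact (hX q (mem_filter.1 hq).1).1
  · intro q hq i
    exact (hF _ _ ((hX q (mem_filter.1 hq).1).2 i).1).1
  · intro q hq
    exact (mem_filter.1 hq).2

/-- Swap one of the `A i` with `C`. -/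
def swC (i : Fin t) (q : Bk N t) : Bk N t := ((q.2 i, q.1.1), Function.update q.2 i q.1.2)

/-- Swap one of the `A i` with `B`. -/
def swB (i : Fin t) (q : Bk N t) : Bk N t := ((q.2 i, q.1.2), Function.update q.2 i q.1.1)

lemma swC_inj (i : Fin t) : Function.Injective (swC (N := N) i) := by
  rintro ⟨⟨B, C⟩, A⟩ ⟨⟨B', C'⟩, A'⟩ h
  simp only [swC, Prod.mk.injEq] at h
  obtain ⟨⟨h1, h2⟩, h3⟩ := h
  have h4 : C = C' := by
    have := congrFun h3 i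
    simpa using this
  have h5 : A = A' := by
    funext j
    by_cases hj : j = i
    · rw [hj]; exact h1
    · have := congrFun h3 j
      simpa [Function.update_of_ne hj] using this
  rw [h2, h4, h5]

lemma swB_inj (i : Fin t) : Function.Injective (swB (N := N) i) := by
  rintro ⟨⟨B, C⟩, A⟩ ⟨⟨B', C'⟩, A'⟩ h
  simp only [swB, Prod.mk.injEq] at h
  obtain ⟨⟨h1, h2⟩, h3⟩ := h
  have h4 : B = B' := by
    have := congrFun h3 i
    simpa using this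
  have h5 : A = A' := by
    funext j
    by_cases hj : j = i
    · rw [hj]; exact h1
    · have := congrFun h3 j
      simpa [Function.update_of_ne hj] using this
  rw [h2, h4, h5]

lemma swC_mem (hF : ∀ A B, R A B → A ∈ F ∧ B ∈ F) {q : Bk N t}
    (hX : R q.1.1 q.1.2 ∧ (∀ i, R (q.2 i) q.1.1 ∧ R (q.2 i) q.1.2)) (i j : Fin t) :
    (swC i q).2 j ∈ F := by
  by_cases hj : j = i
  · subst hj
    simpa [swC] using (hF _ _ hX.1).2
  · simpa [swC, Function.update_of_ne hj] using (hF _ _ (hX.2 j).1).1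

lemma swB_mem (hF : ∀ A B, R A B → A ∈ F ∧ B ∈ F) {q : Bk N t}
    (hX : R q.1.1 q.1.2 ∧ (∀ i, R (q.2 i) q.1.1 ∧ R (q.2 i) q.1.2)) (i j : Fin t) :
    (swB i q).2 j ∈ F := by
  by_cases hj : j = i
  · subst hj
    simpa [swB] using (hF _ _ hX.1).1
  · simpa [swB, Function.update_of_ne hj] using (hF _ _ (hX.2 j).1).1

open Classical in
lemma part2 (hF : ∀ A B, R A B → A ∈ F ∧ B ∈ F)
    (hinj : ∀ A B A' B', R A B → R A' B' → A ∪ B = A' ∪ B' →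
      (A = A' ∧ B = B') ∨ (A = B' ∧ B = A'))
    {η : ℝ} (hη : 0 < η) (hN : 0 < N) (hC : StmtCheb) (X : Finset (Bk N t))
    (hX : ∀ q ∈ X, R q.1.1 q.1.2 ∧ (∀ i, R (q.2 i) q.1.1 ∧ R (q.2 i) q.1.2))
    (i : Fin t) (J : Finset (Fin t)) (hiJ : i ∉ J) :
    (#{q ∈ X | ¬ Halves η (q.2 i ∪ q.1.1) (cap q.2 J ∩ q.1.2ᶜ)} : ℝ) ≤
      (#F : ℝ) ^ t * (2 * (2 ^ N / (4 * η ^ 2 * N))) := by
  refine count_le (F := F) hinj hη hN hC _ (swC i) ((swC_inj i).injOn)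
    (fun ψ => cap ψ J ∩ (ψ i)ᶜ) ?_ ?_ ?_
  · intro q hq
    exact ((hX q (mem_filter.1 hq).1).2 i).1
  · intro q hq j
    exact swC_mem hF (hX q (mem_filter.1 hq).1) i j
  · intro q hq
    have h := (mem_filter.1 hq).2
    simp only [swC, Function.update_self]
    rw [cap_update hiJ]
    exact h

open Classical in
lemma part3 (hF : ∀ A B, R A B → A ∈ F ∧ B ∈ F)
    (hinj : ∀ A B A' B', R A B → R A' B' → A ∪ B = A' ∪ B' →
      (A = A' ∧ B = B') ∨ (A = B' ∧ B = A'))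
    {η : ℝ} (hη : 0 < η) (hN : 0 < N) (hC : StmtCheb) (X : Finset (Bk N t))
    (hX : ∀ q ∈ X, R q.1.1 q.1.2 ∧ (∀ i, R (q.2 i) q.1.1 ∧ R (q.2 i) q.1.2))
    (i : Fin t) (J : Finset (Fin t)) (hiJ : i ∉ J) :
    (#{q ∈ X | ¬ Halves η (q.2 i ∪ q.1.2) (cap q.2 J)} : ℝ) ≤
      (#F : ℝ) ^ t * (2 * (2 ^ N / (4 * η ^ 2 * N))) := by
  refine count_le (F := F) hinj hη hN hC _ (swB i) ((swB_inj i).injOn)
    (fun ψ => cap ψ J) ?_ ?_ ?_
  · intro q hq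
    exact ((hX q (mem_filter.1 hq).1).2 i).2
  · intro q hq j
    exact swB_mem hF (hX q (mem_filter.1 hq).1) i j
  · intro q hq
    have h := (mem_filter.1 hq).2
    simp only [swB]
    rw [cap_update hiJ]
    exact h

open Classical in
lemma part4 (hF : ∀ A B, R A B → A ∈ F ∧ B ∈ F)
    (hinj : ∀ A B A' B', R A B → R A' B' → A ∪ B = A' ∪ B' →
      (A = A' ∧ B = B') ∨ (A = B' ∧ B = A'))
    {η : ℝ} (hη : 0 < η) (hN : 0 < N) (hC : StmtCheb) (X : Finset (Bk N t))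
    (hX : ∀ q ∈ X, R q.1.1 q.1.2 ∧ (∀ i, R (q.2 i) q.1.1 ∧ R (q.2 i) q.1.2))
    (i : Fin t) :
    (#{q ∈ X | ¬ Halves η (q.2 i ∪ q.1.2) q.1.1ᶜ} : ℝ) ≤
      (#F : ℝ) ^ t * (2 * (2 ^ N / (4 * η ^ 2 * N))) := by
  refine count_le (F := F) hinj hη hN hC _ (swB i) ((swB_inj i).injOn)
    (fun ψ => (ψ i)ᶜ) ?_ ?_ ?_
  · intro q hq
    exact ((hX q (mem_filter.1 hq).1).2 i).2
  · intro q hq j
    exact swB_mem hF (hX q (mem_filter.1 hq).1) i j
  · intro q hq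
    have h := (mem_filter.1 hq).2
    simp only [swB, Function.update_self]
    exact h

end parts

lemma bi_le {ι α : Type} [DecidableEq α] (s : Finset ι) (f : ι → Finset α) (k bd : ℝ) (hbd0 : 0 ≤ bd)
    (hk : (#s : ℝ) ≤ k) (hf : ∀ i ∈ s, (#(f i) : ℝ) ≤ bd) :
    (#(s.biUnion f) : ℝ) ≤ k * bd := by
  calc (#(s.biUnion f) : ℝ) ≤ ∑ i ∈ s, (#(f i) : ℝ) := by exact_mod_cast card_biUnion_le
    _ ≤ ∑ i ∈ s, bd := sum_le_sum hf
    _ = #s * bd := by rw [sum_const, nsmul_eq_mul]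
    _ ≤ k * bd := mul_le_mul_of_nonneg_right hk hbd0

lemma c4 : (#(univ.filter (fun J : Finset (Fin t) => #J ≤ 4)) : ℝ) ≤ (t + 1) ^ 4 := by
  have h := card_small (t := t) 4
  have h' : (#(univ.filter (fun J : Finset (Fin t) => #J ≤ 4)) : ℝ) ≤
      ((∑ i ∈ range (4 + 1), t ^ i : ℕ) : ℝ) := Nat.cast_le.2 h
  refine h'.trans ?_
  push_cast
  simp only [sum_range_succ, sum_range_zero]
  have h1 : (0 : ℝ) ≤ t := Nat.cast_nonneg t
  have h2 := pow_nonneg h1 2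
  have h3 := pow_nonneg h1 3
  nlinarith

lemma c3 : (#(univ.filter (fun J : Finset (Fin t) => #J ≤ 3)) : ℝ) ≤ (t + 1) ^ 3 := by
  have h := card_small (t := t) 3
  have h' : (#(univ.filter (fun J : Finset (Fin t) => #J ≤ 3)) : ℝ) ≤
      ((∑ i ∈ range (3 + 1), t ^ i : ℕ) : ℝ) := Nat.cast_le.2 h
  refine h'.trans ?_
  push_cast
  simp only [sum_range_succ, sum_range_zero]
  have h1 : (0 : ℝ) ≤ t := Nat.cast_nonneg t
  have h2 := pow_nonneg h1 2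
  nlinarith

lemma c2 : (#(univ.filter (fun J : Finset (Fin t) => #J ≤ 2)) : ℝ) ≤ (t + 1) ^ 2 := by
  have h := card_small (t := t) 2
  have h' : (#(univ.filter (fun J : Finset (Fin t) => #J ≤ 2)) : ℝ) ≤
      ((∑ i ∈ range (2 + 1), t ^ i : ℕ) : ℝ) := Nat.cast_le.2 h
  refine h'.trans ?_
  push_cast
  simp only [sum_range_succ, sum_range_zero]
  have h1 : (0 : ℝ) ≤ t := Nat.cast_nonneg t
  nlinarith

lemma d_le (k : ℕ) (K : ℝ) (h : (#(univ.filter (fun J : Finset (Fin t) => #J ≤ k)) : ℝ) ≤ K) :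
    (#(((univ : Finset (Fin t)) ×ˢ
      (univ.filter (fun J : Finset (Fin t) => #J ≤ k))).filter (fun p => p.1 ∉ p.2)) : ℝ) ≤
      t * K := by
  have h0 := card_filter_le ((univ : Finset (Fin t)) ×ˢ
    (univ.filter (fun J : Finset (Fin t) => #J ≤ k))) (fun p => p.1 ∉ p.2)
  rw [card_product, card_univ, Fintype.card_fin] at h0
  have h1 : (#(((univ : Finset (Fin t)) ×ˢ
      (univ.filter (fun J : Finset (Fin t) => #J ≤ k))).filter (fun p => p.1 ∉ p.2)) : ℝ) ≤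
      ((t * #(univ.filter (fun J : Finset (Fin t) => #J ≤ k)) : ℕ) : ℝ) := Nat.cast_le.2 h0
  rw [Nat.cast_mul] at h1
  exact h1.trans (mul_le_mul_of_nonneg_left h (Nat.cast_nonneg t))

lemma union4 {α : Type} [DecidableEq α] (X A1 A2 A3 A4 : Finset α) (h : X ⊆ A1 ∪ A2 ∪ A3 ∪ A4) :
    (#X : ℝ) ≤ #A1 + #A2 + #A3 + #A4 := by
  have h1 := card_le_card h
  have h2 := card_union_le (A1 ∪ A2 ∪ A3) A4
  have h3 := card_union_le (A1 ∪ A2) A3
  have h4 := card_union_le A1 A2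
  have h5 : #X ≤ #A1 + #A2 + #A3 + #A4 := by omega
  exact_mod_cast h5

open Classical in
lemma cover {η : ℝ} (X : Finset (Bk N t)) (hbad : ∀ q ∈ X, ¬ TypicalBook η q.1.1 q.1.2 q.2) :
    X ⊆
      ((univ.filter (fun J : Finset (Fin t) => #J ≤ 4)).biUnion
        (fun J => {q ∈ X | ¬ Halves η (q.1.1 ∪ q.1.2) (cap q.2 J)})) ∪
      ((((univ : Finset (Fin t)) ×ˢ (univ.filter (fun J : Finset (Fin t) => #J ≤ 3))).filter
          (fun p => p.1 ∉ p.2)).biUnion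
        (fun p => {q ∈ X | ¬ Halves η (q.2 p.1 ∪ q.1.1) (cap q.2 p.2 ∩ q.1.2ᶜ)})) ∪
      ((((univ : Finset (Fin t)) ×ˢ (univ.filter (fun J : Finset (Fin t) => #J ≤ 2))).filter
          (fun p => p.1 ∉ p.2)).biUnion
        (fun p => {q ∈ X | ¬ Halves η (q.2 p.1 ∪ q.1.2) (cap q.2 p.2)})) ∪
      ((univ : Finset (Fin t)).biUnion
        (fun i => {q ∈ X | ¬ Halves η (q.2 i ∪ q.1.2) q.1.1ᶜ})) := by
  intro q hq
  by_contra hcon
  rw [mem_union, mem_union, mem_union, not_or, not_or, not_or] at hcon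
  obtain ⟨⟨⟨h1, h2⟩, h3⟩, h4⟩ := hcon
  apply hbad q hq
  refine ⟨fun J hJ => ?_, fun i J hJ hiJ => ?_, fun i J hJ hiJ => ?_, fun i => ?_⟩
  · by_contra hh
    exact h1 (mem_biUnion.2 ⟨J, mem_filter.2 ⟨mem_univ _, hJ⟩, mem_filter.2 ⟨hq, hh⟩⟩)
  · by_contra hh
    exact h2 (mem_biUnion.2 ⟨(i, J), mem_filter.2 ⟨mem_product.2 ⟨mem_univ _,
      mem_filter.2 ⟨mem_univ _, hJ⟩⟩, hiJ⟩, mem_filter.2 ⟨hq, hh⟩⟩)
  · by_contra hh
    exact h3 (mem_biUnion.2 ⟨(i, J), mem_filter.2 ⟨mem_product.2 ⟨mem_univ _,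
      mem_filter.2 ⟨mem_univ _, hJ⟩⟩, hiJ⟩, mem_filter.2 ⟨hq, hh⟩⟩)
  · by_contra hh
    exact h4 (mem_biUnion.2 ⟨i, mem_univ _, mem_filter.2 ⟨hq, hh⟩⟩)

lemma arith (x bd f y : ℝ) (t : ℝ) (ht : 0 ≤ t) (hbd0 : 0 ≤ bd)
    (hx : x ≤ (t + 1) ^ 4 * bd + t * (t + 1) ^ 3 * bd + t * (t + 1) ^ 2 * bd + t * bd)
    (hbd2 : bd ≤ f / (2 * y)) (hy : 0 < y) :
    x ≤ (t + 2) ^ 4 * 8 / y * f := by
  have hcoef : (t + 1) ^ 4 + t * (t + 1) ^ 3 + t * (t + 1) ^ 2 + t ≤ 16 * (t + 2) ^ 4 := by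
    have h2 := pow_nonneg ht 2
    have h3 := pow_nonneg ht 3
    have h4 := pow_nonneg ht 4
    nlinarith
  calc x ≤ ((t + 1) ^ 4 + t * (t + 1) ^ 3 + t * (t + 1) ^ 2 + t) * bd := by
        linarith [hx]
    _ ≤ (16 * (t + 2) ^ 4) * (f / (2 * y)) := mul_le_mul hcoef hbd2 hbd0 (by positivity)
    _ = (t + 2) ^ 4 * 8 / y * f := by
        field_simp
        ring

lemma bd_le (f η : ℝ) (t : ℕ) (M n : ℝ) (hf : 0 ≤ f) (hm : M ≤ f ^ 2) (hη : 0 < η) (hn : 0 < n) :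
    f ^ t * (2 * (M / (4 * η ^ 2 * n))) ≤ f ^ (t + 2) / (2 * (η ^ 2 * n)) := by
  have e1 : f ^ t * (2 * (M / (4 * η ^ 2 * n))) = f ^ t * M / (2 * (η ^ 2 * n)) := by
    field_simp; ring
  rw [e1, pow_add]
  gcongr

end Bad

open Bad in
open Classical in
/-- Packet StmtBad. -/
theorem stmtBad : StmtBad := by
  intro N t F R hF _ hinj η hη hN hm hC X hX hbad
  have hNr : (0 : ℝ) < N := Nat.cast_pos.2 hN
  have hbd0 : (0 : ℝ) ≤ (#F : ℝ) ^ t * (2 * (2 ^ N / (4 * η ^ 2 * N))) := by positivity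
  have hm' : (2 : ℝ) ^ N ≤ (#F : ℝ) ^ 2 := by exact_mod_cast hm
  have P1 := part1 hF hinj hη hN hC X hX
  have P2 := part2 hF hinj hη hN hC X hX
  have P3 := part3 hF hinj hη hN hC X hX
  have P4 := part4 hF hinj hη hN hC X hX
  have b1 := bi_le (univ.filter (fun J : Finset (Fin t) => #J ≤ 4))
    (fun J => {q ∈ X | ¬ Halves η (q.1.1 ∪ q.1.2) (cap q.2 J)}) ((t + 1) ^ 4 : ℝ) _ hbd0 c4
  have b1' := b1 (fun J _ => P1 J)
  have e2 : (#(((univ : Finset (Fin t)) ×ˢ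
      (univ.filter (fun J : Finset (Fin t) => #J ≤ 3))).filter (fun p => p.1 ∉ p.2)) : ℝ) ≤
      t * (t + 1) ^ 3 := d_le 3 _ c3
  have b2 := bi_le (((univ : Finset (Fin t)) ×ˢ
      (univ.filter (fun J : Finset (Fin t) => #J ≤ 3))).filter (fun p => p.1 ∉ p.2))
    (fun p => {q ∈ X | ¬ Halves η (q.2 p.1 ∪ q.1.1) (cap q.2 p.2 ∩ q.1.2ᶜ)})
    (t * (t + 1) ^ 3 : ℝ) _ hbd0 e2
  have b2' := b2 (fun p hp => P2 p.1 p.2 (mem_filter.1 hp).2)
  have e3 : (#(((univ : Finset (Fin t)) ×ˢ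
      (univ.filter (fun J : Finset (Fin t) => #J ≤ 2))).filter (fun p => p.1 ∉ p.2)) : ℝ) ≤
      t * (t + 1) ^ 2 := d_le 2 _ c2
  have b3 := bi_le (((univ : Finset (Fin t)) ×ˢ
      (univ.filter (fun J : Finset (Fin t) => #J ≤ 2))).filter (fun p => p.1 ∉ p.2))
    (fun p => {q ∈ X | ¬ Halves η (q.2 p.1 ∪ q.1.2) (cap q.2 p.2)})
    (t * (t + 1) ^ 2 : ℝ) _ hbd0 e3
  have b3' := b3 (fun p hp => P3 p.1 p.2 (mem_filter.1 hp).2)
  have b4 := bi_le (univ : Finset (Fin t))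
    (fun i => {q ∈ X | ¬ Halves η (q.2 i ∪ q.1.2) q.1.1ᶜ}) (t : ℝ) _ hbd0 (by simp)
  have b4' := b4 (fun i _ => P4 i)
  have hX1 := union4 _ _ _ _ _ (cover X hbad)
  exact arith _ _ _ _ _ (Nat.cast_nonneg t) hbd0
    (hX1.trans (add_le_add (add_le_add (add_le_add b1' b2') b3') b4'))
    (bd_le _ η t _ _ (Nat.cast_nonneg _) hm' hη hNr) (by positivity)

end Pool.Agent.Lead.UB
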