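import Pool.Agent.Helper74.UB.Goals4

/-!
# UB-INTC: the strips between the two heads
-/

namespace Pool.Agent.Helper40.UB

open Finset Equiv Helper28.VF Pool.Agent.Helper74.UB
open scoped Classical

section
variable {V D E F E' F' : Type} [Fintype V] [Fintype D] [Fintype E] [Fintype F] [Fintype E']
  [Fintype F']

/-- The two ends of the dart `d` are `u` and `v`. -/
def EE (M : PM D V E F) (d : D) (u v : V) : Prop :=
  (M.vt d = u ∧ tg M d = v) ∨ (M.vt d = v ∧ tg M d = u)

theorem fc_ph (M : PM D V E F) (d : D) : M.fc (ph M d) = M.fc d := by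
  rw [M.fc_iff]
  exact (Equiv.Perm.SameCycle.refl _ d).apply_left

theorem mem_nb (M : PM D V E F) (O A : Finset V) (x : D) :
    x ∈ nb M O A ↔ Bd M O x ∧ ¬ (M.vt x ∈ A ∧ tg M x ∈ A) := by
  unfold nb bd
  rw [mem_filter, mem_filter]
  simp

theorem tg_inl {M : PM D V E F} {I : F → Prop} {M' : PM (DC M I) (VC V I) E' F'}
    (hc : IsCone M I M') (d : D) : tg M' (Sum.inl d) = Sum.inl (tg M d) := by
  unfold tg
  rw [hc.al, hc.vl]

theorem t4_inl {M : PM D V E F} {I : F → Prop} {M' : PM (DC M I) (VC V I) E' F'}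
    (hc : IsCone M I M') {d : D} (hI : ¬ I (M.fc d)) (h4 : T4 M d) : T4 M' (Sum.inl d) := by
  have h1 : ¬ I (M.fc (ph M d)) := by rwa [fc_ph]
  have h2 : ¬ I (M.fc (ph M (ph M d))) := by rwa [fc_ph]
  have h3 : ¬ I (M.fc (ph M (ph M (ph M d)))) := by rwa [fc_ph]
  unfold T4 T3 at *
  rw [hc.po d hI, hc.po _ h1, hc.po _ h2, hc.po _ h3]
  exact ⟨congrArg Sum.inl h4.1, fun h => h4.2 (Sum.inl_injective h)⟩

theorem fin_aux (hAd : StmtConeAd) {M : PM D V E F} {I : F → Prop}
    {M' : PM (DC M I) (VC V I) E' F'} (hc : IsCone M I M') (row : V → ℤ)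
    (C A : Finset (VC V I)) (y : ℤ) (hy : Even y) (d : D) (hI : ¬ I (M.fc d))
    (hd : Bd M' C (Sum.inl d)) (hst : InStrip M row d y) (lo up lo' up' : V)
    (he : EE M d lo up) (hvA : (Sum.inl (M.vt d) : VC V I) ∉ A)
    (htA : (Sum.inl (tg M d) : VC V I) ∉ A) (dl du dv : D) (fl : M.fc dl = M.fc d)
    (fu : M.fc du = M.fc d) (fv : M.fc dv = M.fc d) (el : EE M dl lo lo') (eu : EE M du up up')
    (ev : EE M dv lo' up') (rlo : row lo = y) (rup : row up = y + 1) (rlo' : row lo' = y)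
    (rup' : row up' = y + 1) (t4 : T4 M dv)
    (hall : ∀ e, M.fc e = M.fc d → M.vt e = lo ∨ M.vt e = up ∨ M.vt e = lo' ∨ M.vt e = up') :
    ∃ (S : Finset D) (P : Finset (V × V)),
      (∀ d ∈ S, Sum.inl d ∈ nb M' C A ∧ InStrip M row d y) ∧
      (∀ p ∈ P, Sum.inl p.1 ∈ C ∧ Sum.inl p.2 ∈ C ∧ SqE M' (Sum.inl p.1) (Sum.inl p.2) ∧
        row p.1 = y ∧ row p.2 = y + 1) ∧ P.card ≤ 1 ∧ (¬ Even y → P = ∅) ∧
      1 + (if Even y then 1 else 0) ≤ S.card + P.card := by
  obtain ⟨hT, hv, ht⟩ := hd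
  rw [hc.vl] at hv
  rw [tg_inl hc] at ht
  have hAd' := (hAd D V E F E' F' M I M' hc).2.2.2.2.1
  -- the ends of `d`
  have hlo : (Sum.inl lo : VC V I) ∉ C := by
    rcases he with ⟨h1, h2⟩ | ⟨h1, h2⟩
    · rwa [← h1]
    · rwa [← h2]
  have hup : (Sum.inl up : VC V I) ∉ C := by
    rcases he with ⟨h1, h2⟩ | ⟨h1, h2⟩
    · rwa [← h2]
    · rwa [← h1]
  have hloA : (Sum.inl lo : VC V I) ∉ A := by
    rcases he with ⟨h1, h2⟩ | ⟨h1, h2⟩
    · rwa [← h1]
    · rwa [← h2]
  have hupA : (Sum.inl up : VC V I) ∉ A := by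
    rcases he with ⟨h1, h2⟩ | ⟨h1, h2⟩
    · rwa [← h2]
    · rwa [← h1]
  -- generic statement: a dart of the face of `d`
  have key : ∀ x : D, M.fc x = M.fc d → ∀ u v : V, EE M x u v → (Sum.inl u : VC V I) ∉ C →
      (Sum.inl v : VC V I) ∉ C → (Sum.inl u : VC V I) ∉ A →
      (Sum.inl x : DC M I) ∈ nb M' C A ∧ InStrip M row x y := by
    intro x fx u v exuv hu hv' huA
    have hIx : ¬ I (M.fc x) := by rwa [fx]
    refine ⟨?_, ?_⟩
    · rw [mem_nb]
      refine ⟨⟨?_, ?_, ?_⟩, ?_⟩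
      · rw [hAd' x hIx C, fx, ← hAd' d hI C]
        exact hT
      · rw [hc.vl]
        rcases exuv with ⟨h1, h2⟩ | ⟨h1, h2⟩
        · rwa [h1]
        · rwa [h1]
      · rw [tg_inl hc]
        rcases exuv with ⟨h1, h2⟩ | ⟨h1, h2⟩
        · rwa [h2]
        · rwa [h2]
      · rw [hc.vl, tg_inl hc]
        rintro ⟨h3, h4⟩
        rcases exuv with ⟨h1, h2⟩ | ⟨h1, h2⟩
        · rw [h1] at h3
          exact huA h3
        · rw [h2] at h4
          exact huA h4
    · unfold InStrip at *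
      rw [fx]
      exact hst
  have hnd := key d rfl lo up he hlo hup hloA
  have hP1 : 1 + (if Even y then 1 else 0) = 2 := by rw [if_pos hy]
  rw [hP1]
  by_cases h1 : (Sum.inl lo' : VC V I) ∈ C
  · by_cases h2 : (Sum.inl up' : VC V I) ∈ C
    · refine ⟨{d}, {(lo', up')}, ?_, ?_, ?_, ?_, ?_⟩
      · intro x hx
        rw [mem_singleton] at hx
        rw [hx]
        exact hnd
      · intro p hp
        rw [mem_singleton] at hp
        rw [hp]
        refine ⟨h1, h2, ⟨Sum.inl dv, t4_inl hc (by rwa [fv]) t4, ?_⟩, rlo', rup'⟩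
        rw [hc.vl, tg_inl hc]
        rcases ev with ⟨h3, h4⟩ | ⟨h3, h4⟩
        · left
          exact ⟨congrArg Sum.inl h3, congrArg Sum.inl h4⟩
        · right
          exact ⟨congrArg Sum.inl h3, congrArg Sum.inl h4⟩
      · simp
      · intro h
        exact absurd hy h
      · simp
    · have hnu := key du fu up up' eu hup h2 hupA
      refine ⟨{d, du}, ∅, ?_, ?_, ?_, ?_, ?_⟩
      · intro x hx
        rw [mem_insert, mem_singleton] at hx
        rcases hx with hx | hx
        · rw [hx]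
          exact hnd
        · rw [hx]
          exact hnu
      · intro p hp
        simp at hp
      · simp
      · intro h
        rfl
      · have hne : d ≠ du := by
          intro h
          rw [← h] at eu
          rcases he with ⟨h3, h4⟩ | ⟨h3, h4⟩ <;> rcases eu with ⟨h5, h6⟩ | ⟨h5, h6⟩
          · rw [h3] at h5
            rw [h5] at rlo
            omega
          · rw [h3] at h5
            rw [h5] at rlo
            omega
          · rw [h4] at h6
            rw [h6] at rlo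
            omega
          · rw [h4] at h6
            rw [h6] at rlo
            omega
        rw [card_pair hne]
        simp
  · by_cases h2 : (Sum.inl up' : VC V I) ∈ C
    · have hnl := key dl fl lo lo' el hlo h1 hloA
      refine ⟨{d, dl}, ∅, ?_, ?_, ?_, ?_, ?_⟩
      · intro x hx
        rw [mem_insert, mem_singleton] at hx
        rcases hx with hx | hx
        · rw [hx]
          exact hnd
        · rw [hx]
          exact hnl
      · intro p hp
        simp at hp
      · simp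
      · intro h
        rfl
      · have hne : d ≠ dl := by
          intro h
          rw [← h] at el
          rcases he with ⟨h3, h4⟩ | ⟨h3, h4⟩ <;> rcases el with ⟨h5, h6⟩ | ⟨h5, h6⟩
          · rw [h4] at h6
            rw [h6] at rup
            omega
          · rw [h4] at h6
            rw [h6] at rup
            omega
          · rw [h3] at h5
            rw [h5] at rup
            omega
          · rw [h3] at h5
            rw [h5] at rup
            omega
        rw [card_pair hne]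
        simp
    · exfalso
      obtain ⟨e, he1, he2⟩ := (hAd' d hI C).1 hT
      rcases hall e he1 with h | h | h | h
      · rw [h] at he2
        exact hlo he2
      · rw [h] at he2
        exact hup he2
      · rw [h] at he2
        exact h1 he2
      · rw [h] at he2
        exact h2 he2

end

/-- A sequence of integers that goes from `≥ y + 1` to `≤ y`. -/
theorem cross_dn (ρ : ℕ → ℤ) (y : ℤ) (k : ℕ) (h0 : y + 1 ≤ ρ 0) (hk : ρ k ≤ y) :
    ∃ i < k, y + 1 ≤ ρ i ∧ ρ (i + 1) ≤ y := by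
  induction k with
  | zero => omega
  | succ k ih =>
    by_cases h : ρ k ≤ y
    · obtain ⟨i, hi, h1⟩ := ih h
      exact ⟨i, by omega, h1⟩
    · exact ⟨k, by omega, by omega, hk⟩

/-- A sequence of integers that goes from `≤ y` to `≥ y + 1`. -/
theorem cross_up (ρ : ℕ → ℤ) (y : ℤ) (k : ℕ) (h0 : ρ 0 ≤ y) (hk : y + 1 ≤ ρ k) :
    ∃ i < k, ρ i ≤ y ∧ y + 1 ≤ ρ (i + 1) := by
  induction k with
  | zero => omega
  | succ k ih =>
    by_cases h : y + 1 ≤ ρ k
    · obtain ⟨i, hi, h1⟩ := ih h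
      exact ⟨i, by omega, h1⟩
    · exact ⟨k, by omega, by omega, hk⟩

theorem intc (hArc : StmtArcX) (hBF : StmtBaseF) (hStrip : StmtStrip) (hSq : StmtSq)
    (hAd : StmtConeAd) : StmtIntC := by
  intro K h V D E F E' F' _ _ _ _ _ _ L f M dE dW dU dN I M' y0 y1 c v₀ A Q X T R₁ R₂ hS s C hs
    hC hh₁ hh₂ hhf y hy1 hy2
  have hB := hS.base
  have hL := hB.host
  have hlm := hB.lm
  have hc := hB.cone
  have hfire := hB.fire
  obtain ⟨k, g, hg1, hg2, hg3⟩ := hArc (DC M I) (VC V I) E' F' M' c v₀ A Q hfire T X hS.col R₁ R₂ s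
    C hs hC hh₁ hh₂ hhf
  have hBF' := hBF K h V D E F E' F' L f M dE dW dU dN I M' y0 y1 c v₀ A Q hB
  have hinr := hBF'.1
  have hQl := hBF'.2.1
  have hStrip' := hStrip K h V D E F L f M dE dW dU dN hL hlm
  -- lengths of the walks
  have hn : ∀ R : Route M' A Q X T, R.p s 0 ∈ C → 1 ≤ R.n s := by
    intro R hR
    by_contra hcon
    have h0 : R.n s = 0 := by omega
    have h1 := R.fin s hs
    rw [h0] at h1
    exact (Finset.disjoint_left.1 (hS.col.disj s hs.le)) (hC.sub hR) h1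
  obtain ⟨a₁, ha₁, hr₁⟩ := hS.r1 s hs 1 le_rfl (hn R₁ hh₁)
  obtain ⟨a₂, ha₂, hr₂⟩ := hS.r2 s hs 1 le_rfl (hn R₂ hh₂)
  have hra₁ : y + 1 ≤ L.row a₁ := by
    refine le_trans ?_ hr₁
    rw [le_min_iff]
    rw [lt_min_iff] at hy2
    omega
  have hra₂ : L.row a₂ ≤ y := by
    refine hr₂.trans ?_
    rw [max_le_iff]
    rw [max_le_iff] at hy1
    omega
  -- the darts of the arc are darts of the host
  have hgl : ∀ i ≤ k, ∃ d, g i = Sum.inl d := by
    intro i hi
    obtain ⟨-, h2, h3⟩ := hg1 i hi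
    rcases hgi : g i with d | ⟨d, b⟩
    · exact ⟨d, rfl⟩
    · exfalso
      rw [hgi] at h2 h3
      cases b
      · apply h3
        unfold tg
        rw [hc.ar]
        change M'.vt (Sum.inr (d, true)) ∈ A s
        rw [hc.vtr]
        exact hinr s _
      · apply h2
        rw [hc.vtr]
        exact hinr s _
  obtain ⟨ρ, hρ⟩ : ∃ ρ : ℕ → ℤ, ρ = fun i => Sum.elim L.row (fun _ => 0) (M'.vt (g i)) := ⟨_, rfl⟩
  have hcr : ∃ i < k, (y + 1 ≤ ρ i ∧ ρ (i + 1) ≤ y) ∨ (ρ i ≤ y ∧ y + 1 ≤ ρ (i + 1)) := by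
    rcases hg3 with ⟨h1, h2⟩ | ⟨h1, h2⟩
    · obtain ⟨i, hi, h3⟩ := cross_dn ρ y k (by
        rw [hρ]
        dsimp only
        rw [h1, ha₁]
        exact hra₁) (by
        rw [hρ]
        dsimp only
        rw [h2, ha₂]
        exact hra₂)
      exact ⟨i, hi, Or.inl h3⟩
    · obtain ⟨i, hi, h3⟩ := cross_up ρ y k (by
        rw [hρ]
        dsimp only
        rw [h1, ha₂]
        exact hra₂) (by
        rw [hρ]
        dsimp only
        rw [h2, ha₁]
        exact hra₁)
      exact ⟨i, hi, Or.inr h3⟩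
  obtain ⟨i, hik, hcr⟩ := hcr
  obtain ⟨d, hgd⟩ := hgl i hik.le
  obtain ⟨hbd, hvA, htA⟩ := hg1 i hik.le
  have hρi : ρ i = L.row (M.vt d) := by
    rw [hρ]
    dsimp only
    rw [hgd, hc.vl]
    rfl
  have hρi' : ρ (i + 1) = L.row (tg M d) := by
    rw [hρ]
    dsimp only
    rw [hg2 i hik, hgd, tg_inl hc]
    rfl
  rw [hρi, hρi'] at hcr
  rw [hgd] at hbd hvA htA
  rw [hc.vl] at hvA
  rw [tg_inl hc] at htA
  have hBd : Bd M' C (Sum.inl d) := by
    unfold bd at hbd
    simpa using hbd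
  -- the face of `d` is not in `I`
  have hI : ¬ I (M.fc d) := by
    intro hI
    have h1 := ((hAd D V E F E' F' M I M' hc).2.2.2.2.2 d hI C).1 hBd.1
    rcases h1 with h1 | h1 | h1
    · apply hBd.2.1
      rw [hc.vl]
      exact h1
    · apply hBd.2.2
      rw [tg_inl hc]
      exact h1
    · obtain ⟨v, hv⟩ := hQl s _ (hC.sub h1)
      exact Sum.inr_ne_inl hv
  -- `d` is a vertical dart
  have hvert : ∃ v k', L.up v k' ∧ (d = dU v k' ∨ d = dN v k') ∧ L.row v = y := by
    rcases hlm.cov d with ⟨v, hv⟩ | ⟨v, hv⟩ | ⟨v, k', hup, hv⟩ | ⟨v, k', hup, hv⟩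
    · exfalso
      have h1 : M.vt d = v := by rw [hv, hlm.vE]
      have h2 : tg M d = L.e v := by
        unfold tg
        rw [hv, hlm.aE, hlm.vW]
      rw [h1, h2, hL.ax.row_e] at hcr
      omega
    · exfalso
      have h1 : M.vt d = L.e v := by rw [hv, hlm.vW]
      have h2 : tg M d = v := by
        unfold tg
        rw [hv, ← hlm.aE, M.α_inv, hlm.vE]
      rw [h1, h2, hL.ax.row_e] at hcr
      omega
    · refine ⟨v, k', hup, Or.inl hv, ?_⟩
      have h1 : M.vt d = v := by rw [hv, hlm.vU v k' hup]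
      have h2 : tg M d = k' := by
        unfold tg
        rw [hv, hlm.aU v k' hup, hlm.vN v k' hup]
      rw [h1, h2, hL.ax.up_row v k' hup] at hcr
      omega
    · refine ⟨v, k', hup, Or.inr hv, ?_⟩
      have h1 : M.vt d = k' := by rw [hv, hlm.vN v k' hup]
      have h2 : tg M d = v := by
        unfold tg
        rw [hv, ← hlm.aU v k' hup, M.α_inv, hlm.vU v k' hup]
      rw [h1, h2, hL.ax.up_row v k' hup] at hcr
      omega
  obtain ⟨v, k', hup, hdv, hrv⟩ := hvert
  have hst : InStrip M L.row d y := by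
    have h1 := hStrip'.2.2.1 v k' hup
    rw [hrv] at h1
    rcases hdv with hdv | hdv
    · rw [hdv]
      exact h1.1
    · rw [hdv]
      exact h1.2
  by_cases hy : Even y
  swap
  · refine ⟨{d}, ∅, ?_, ?_, ?_, ?_, ?_⟩
    · intro x hx
      rw [mem_singleton] at hx
      rw [hx]
      refine ⟨?_, hst⟩
      rw [mem_nb]
      refine ⟨hBd, ?_⟩
      rw [hc.vl]
      exact fun h => hvA h.1
    · intro p hp
      simp at hp
    · simp
    · intro _
      rfl
    · simp [hy]
  have hy0 : 0 ≤ y := le_trans (le_max_right _ _) hy1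
  have hyh : y < h := lt_of_lt_of_le hy2 (min_le_right _ _)
  obtain ⟨x, hx⟩ := hL.flat.surj v (by omega) (by omega)
  rw [hrv] at hx
  obtain ⟨n, hn'⟩ : ∃ n : ℕ, y = n := ⟨y.toNat, by omega⟩
  have hnh : n < h := by omega
  have hne : Even n := by
    rw [hn'] at hy
    exact_mod_cast hy
  have upS : ∀ j k, L.up (f y j) k ↔ k = f (y + 1) j := by
    intro j k
    rw [hn']
    exact hL.flat.upS n j k (Nat.zero_le _) hnh hne
  have hk' : k' = f (y + 1) x := (upS x k').1 (by rw [hx]; exact hup)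
  have rf0 : ∀ j, L.row (f y j) = y := fun j => by
    rw [hn']
    exact hL.flat.row n j (Nat.zero_le _) hnh.le
  have rf1 : ∀ j, L.row (f (y + 1) j) = y + 1 := fun j => by
    have h1 := hL.flat.row (n + 1) j (Nat.zero_le _) hnh
    push_cast at h1
    rw [hn']
    exact h1
  have ef0 : ∀ j, L.e (f y j) = f y (j + 1) := fun j => by
    rw [hn']
    exact hL.flat.e n j (Nat.zero_le _) hnh.le
  have ef1 : ∀ j, L.e (f (y + 1) j) = f (y + 1) (j + 1) := fun j => by
    have h1 := hL.flat.e (n + 1) j (Nat.zero_le _) hnh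
    push_cast at h1
    rw [hn']
    exact h1
  have upj : ∀ j, L.up (f y j) (f (y + 1) j) := fun j => (upS j _).2 rfl
  have hsq := fun j => hSq K h V D E F L f M dE dW dU dN hL hlm y j hy0 hyh hy
  have eE : ∀ j, EE M (dE (f y j)) (f y j) (f y (j + 1)) := by
    intro j
    left
    refine ⟨hlm.vE _, ?_⟩
    unfold tg
    rw [hlm.aE, hlm.vW, ef0]
  have eW : ∀ j, EE M (dW (f (y + 1) j)) (f (y + 1) j) (f (y + 1) (j + 1)) := by
    intro j
    right
    refine ⟨?_, ?_⟩
    · rw [hlm.vW, ef1]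
    · unfold tg
      rw [← hlm.aE, M.α_inv, hlm.vE]
  have eU : ∀ j, EE M (dU (f y j) (f (y + 1) j)) (f y j) (f (y + 1) j) := by
    intro j
    left
    refine ⟨hlm.vU _ _ (upj j), ?_⟩
    unfold tg
    rw [hlm.aU _ _ (upj j), hlm.vN _ _ (upj j)]
  have eN : ∀ j, EE M (dN (f y j) (f (y + 1) j)) (f y j) (f (y + 1) j) := by
    intro j
    right
    refine ⟨hlm.vN _ _ (upj j), ?_⟩
    unfold tg
    rw [← hlm.aU _ _ (upj j), M.α_inv, hlm.vU _ _ (upj j)]
  have t4s : ∀ z, InStrip M L.row z y → T4 M z := fun z hz =>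
    (hStrip'.2.2.2.2.2 z).2 ⟨y, hy0, hyh, hy, hz⟩
  have t4U : ∀ j, T4 M (dU (f y j) (f (y + 1) j)) := fun j => by
    have h1 := (hStrip'.2.2.1 _ _ (upj j)).1
    rw [rf0] at h1
    exact t4s _ h1
  have t4N : ∀ j, T4 M (dN (f y j) (f (y + 1) j)) := fun j => by
    have h1 := (hStrip'.2.2.1 _ _ (upj j)).2
    rw [rf0] at h1
    exact t4s _ h1
  rw [← hx, hk'] at hdv
  rcases hdv with hdv | hdv
  · -- the square to the west
    obtain ⟨j, hj⟩ : ∃ j, x = j + 1 := ⟨x - 1, by ring⟩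
    subst hj
    have fE : M.fc (dE (f y j)) = M.fc d := by
      rw [hdv]
      exact (((hsq j).2 _).2 (Or.inr (Or.inl rfl))).symm
    refine fin_aux hAd hc L.row C (A s) y hy d hI hBd hst (f y (j + 1)) (f (y + 1) (j + 1)) (f y j)
      (f (y + 1) j) ?_ hvA htA (dE (f y j)) (dW (f (y + 1) j)) (dN (f y j) (f (y + 1) j)) fE ?_ ?_
      (eE j).symm (eW j).symm (eN j) (rf0 _) (rf1 _) (rf0 _) (rf1 _) (t4N j) ?_
    · rw [hdv]
      exact eU (j + 1)
    · rw [← fE]
      exact ((hsq j).2 _).2 (Or.inr (Or.inr (Or.inl rfl)))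
    · rw [← fE]
      exact ((hsq j).2 _).2 (Or.inr (Or.inr (Or.inr rfl)))
    · intro z hz
      rw [← fE, (hsq j).2] at hz
      rcases hz with hz | hz | hz | hz
      · rw [hz, hlm.vE]
        tauto
      · rw [hz, hlm.vU _ _ (upj (j + 1))]
        tauto
      · rw [hz, hlm.vW, ef1]
        tauto
      · rw [hz, hlm.vN _ _ (upj j)]
        tauto
  · -- the square to the east
    have fE : M.fc (dE (f y x)) = M.fc d := by
      rw [hdv]
      exact (((hsq x).2 _).2 (Or.inr (Or.inr (Or.inr rfl)))).symm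
    refine fin_aux hAd hc L.row C (A s) y hy d hI hBd hst (f y x) (f (y + 1) x) (f y (x + 1))
      (f (y + 1) (x + 1)) ?_ hvA htA (dE (f y x)) (dW (f (y + 1) x))
      (dU (f y (x + 1)) (f (y + 1) (x + 1))) fE ?_ ?_
      (eE x) (eW x) (eU (x + 1)) (rf0 _) (rf1 _) (rf0 _) (rf1 _) (t4U (x + 1)) ?_
    · rw [hdv]
      exact eN x
    · rw [← fE]
      exact ((hsq x).2 _).2 (Or.inr (Or.inr (Or.inl rfl)))
    · rw [← fE]
      exact ((hsq x).2 _).2 (Or.inr (Or.inl rfl))
    · intro z hz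
      rw [← fE, (hsq x).2] at hz
      rcases hz with hz | hz | hz | hz
      · rw [hz, hlm.vE]
        tauto
      · rw [hz, hlm.vU _ _ (upj (x + 1))]
        tauto
      · rw [hz, hlm.vW, ef1]
        tauto
      · rw [hz, hlm.vN _ _ (upj x)]
        tauto

end Pool.Agent.Helper40.UB
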